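import Pool.Agent.Helper37.BP.SysDefs

/-! Definitions for the case `p = ∞` of MP_6f6997_an. -/

open MeasureTheory
open scoped ENNReal NNReal

set_option maxSynthPendingDepth 3

namespace Pool.Agent.Helper37.BP

open Pool.Agent.BAPp (sgn weakNorm)

/-- The Chevet–Saphar norm `g_∞`: the infimum of `max ‖y_k*‖ · ‖(x_k)‖^w_1` over all
representations `T = ∑ y_k* ⊗ x_k`. -/
noncomputable def gTop {Y X : Type} [NormedAddCommGroup Y] [NormedSpace ℝ Y]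
    [NormedAddCommGroup X] [NormedSpace ℝ X] (T : Y →L[ℝ] X) : ℝ≥0∞ :=
  ⨅ (n : ℕ) (ys : Fin n → (Y →L[ℝ] ℝ)) (xs : Fin n → X) (_ : ∀ y, T y = ∑ k, ys k y • xs k),
    (⨆ k, ENNReal.ofReal ‖ys k‖) * weakNorm 1 xs

/-- The `∞`-integral norm: the infimum of `‖A‖ ‖B‖` over all factorisations of `j_X T` as
`Y → L_∞(μ) → X**`, where `μ` is a probability measure. -/
noncomputable def iTop {Y X : Type} [NormedAddCommGroup Y] [NormedSpace ℝ Y]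
    [NormedAddCommGroup X] [NormedSpace ℝ X] (T : Y →L[ℝ] X) : ℝ≥0∞ :=
  ⨅ (Ω : Type) (_ : MeasurableSpace Ω) (μ : Measure Ω) (_ : IsProbabilityMeasure μ)
    (A : Y →L[ℝ] Lp ℝ ∞ μ) (B : Lp ℝ ∞ μ →L[ℝ] ((X →L[ℝ] ℝ) →L[ℝ] ℝ))
    (_ : ∀ (y : Y) (f : X →L[ℝ] ℝ), f (T y) = B (A y) f),
    ENNReal.ofReal (‖A‖ * ‖B‖)

/-- Cotype `r` with constant `C`, with `L_1` averages over signs. -/
def Cot (r C : ℝ) (X : Type) [NormedAddCommGroup X] [NormedSpace ℝ X] : Prop :=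
  ∀ (n : ℕ) (x : Fin n → X), (∑ i, ‖x i‖ ^ r) ^ (1 / r) ≤
    C * ((∑ ω : Fin n → Bool, ‖∑ i, sgn (ω i) • x i‖) / 2 ^ n)

/-- Every operator `ℓ_∞^n → X` of norm `≤ 1` is `p`-dominated with constant `C`. -/
def LinfDom (p C : ℝ) (X : Type) [NormedAddCommGroup X] [NormedSpace ℝ X] : Prop :=
  ∀ (n : ℕ) (x : Fin n → X),
    (∀ t : Fin n → ℝ, (∀ i, |t i| ≤ 1) → ‖∑ i, t i • x i‖ ≤ 1) →
    ∃ w : Fin n → ℝ, (∀ i, 0 ≤ w i) ∧ ∑ i, w i ≤ 1 ∧
      ∀ t : Fin n → ℝ, ‖∑ i, t i • x i‖ ≤ C * (∑ i, w i * |t i| ^ p) ^ (1 / p)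

/-- Rademacher lifting property of a subspace `S` of `B` with constant `K`. -/
def RadLift (K : ℝ) {B : Type} [NormedAddCommGroup B] [NormedSpace ℝ B]
    (S : Submodule ℝ B) : Prop :=
  ∀ (N : ℕ) (b : Fin N → B) (s : (Fin N → Bool) → S), ∃ σ : Fin N → S,
    ∑ ω : Fin N → Bool, ‖∑ j, sgn (ω j) • (b j + (σ j : B))‖ ≤
      K * ∑ ω : Fin N → Bool, ‖∑ j, sgn (ω j) • b j + (s ω : B)‖

/-- `j : X → X'` extends every operator of norm `≤ η` from a subspace of `ℓ_q^n` into `X` to an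
operator `ℓ_q^n → X'` of norm `≤ 1`. -/
def ExtStep (q η : ℝ) {X X' : Type} [NormedAddCommGroup X] [NormedSpace ℝ X]
    [NormedAddCommGroup X'] [NormedSpace ℝ X'] (j : X →ₗᵢ[ℝ] X') : Prop :=
  ∀ (n : ℕ) (S : Submodule ℝ (Fin n → ℝ)) (u : S →ₗ[ℝ] X),
    (∀ s : S, ‖u s‖ ≤ η * (∑ i, |(s : Fin n → ℝ) i| ^ q) ^ (1 / q)) →
    ∃ b : Fin n → X', (∀ s : S, j (u s) = ∑ i, (s : Fin n → ℝ) i • b i) ∧
      ∀ t : Fin n → ℝ, ‖∑ i, t i • b i‖ ≤ (∑ i, |t i| ^ q) ^ (1 / q)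

/-- A Banach space with the cotype property and a contraction into `Z`. -/
structure TObj (r C : ℝ) (Z : Type) [NormedAddCommGroup Z] [NormedSpace ℝ Z] where
  X : Type
  [grp : NormedAddCommGroup X]
  [spc : NormedSpace ℝ X]
  [cpl : CompleteSpace X]
  cot : Cot r C X
  Ψ : X →L[ℝ] Z
  norm_le : ‖Ψ‖ ≤ 1

attribute [instance] TObj.grp TObj.spc TObj.cpl

/-- What the concrete system provides for the failure of the outer inequality at `p = ∞`. -/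
def OutDataTop (p : ℝ) [Fact (1 ≤ ENNReal.ofReal p)] {Γ I : Type} [DecidableEq I] (D : Sys Γ I)
    {E : Type} [NormedAddCommGroup E] [NormedSpace ℝ E] (Φ : E →L[ℝ] XX D) : Prop :=
  ∀ ε : ℝ, 0 < ε → ∃ (m : ℕ) (φ : Fin m → Γ → ℝ) (z : Fin m → E) (G : Type) (_ : Countable G)
    (η : G → Γ → ℝ) (d : G → ℝ) (R : lp (fun _ : G => ℝ) (ENNReal.ofReal p) →L[ℝ] E),
    (∀ i, (Function.support (φ i)).Finite) ∧
    (∀ i j, ip D.ρ (D.vh j)
      (fun γ => (Φ (z i) : lp (fun _ : Γ ⊕ Om I => ℝ) ∞) (Sum.inl γ)) = 0) ∧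
    ∑ i, ip D.ρ (φ i) (fun γ => (Φ (z i) : lp (fun _ : Γ ⊕ Om I => ℝ) ∞) (Sum.inl γ)) = 1 ∧
    (∀ g, (Function.support (η g)).Finite) ∧
    (∀ g, ∑' γ, D.ρ γ * |η g γ| ^ p ≤ 1) ∧
    ‖R‖ ≤ 1 ∧
    (∀ g, 0 ≤ d g) ∧ Summable (fun g => d g ^ p) ∧ 0 < ∑' g, d g ^ p ∧
    ∑' g, d g ^ p ≤ ε ^ p ∧
    ∀ y : Γ → ℝ, (∀ j, ip D.ρ (D.vh j) y = 0) →
      ∀ a : lp (fun _ : G => ℝ) (ENNReal.ofReal p), (∀ g, a g = d g * ip D.ρ (η g) y) →
      R a = ∑ i, ip D.ρ (φ i) y • z i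

/-! ### The space `E₀` over the tree -/

/-- the `ℓ_r` sum over all nodes `h₀` of the spaces `ℓ_1(Sg k)`, `k` the level of `h₀` -/
abbrev Lam (r : ℝ) : Type :=
  lp (fun γ : Ix => PiLp 1 (fun _ : Sg γ.1 => ℝ)) (ENNReal.ofReal r)

/-- node coordinates of an element of `Lam` -/
noncomputable def co (t : Tree) (r : ℝ) (F : Lam r) (k : ℕ) (h : Sg k) : ℝ :=
  (t.m k : ℝ) ^ (1 / r) * F ⟨k, h⟩ h

/-- the function on `Gam` with node coordinates `co F` -/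
noncomputable def hat (t : Tree) (r : ℝ) (F : Lam r) : Gam → ℝ :=
  fun γ => ∑ h ∈ t.A γ.1 γ.2.1, sgn (γ.2.2 h) * co t r F γ.1 h

theorem hat_add (t : Tree) (r : ℝ) (F G : Lam r) (γ : Gam) :
    hat t r (F + G) γ = hat t r F γ + hat t r G γ := by
  unfold hat co
  rw [← Finset.sum_add_distrib]
  refine Finset.sum_congr rfl fun h _ => ?_
  have : (F + G) ⟨γ.1, h⟩ h = F ⟨γ.1, h⟩ h + G ⟨γ.1, h⟩ h := rfl
  rw [this]; ring

theorem hat_smul (t : Tree) (r c : ℝ) (F : Lam r) (γ : Gam) :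
    hat t r (c • F) γ = c * hat t r F γ := by
  unfold hat co
  rw [Finset.mul_sum]
  refine Finset.sum_congr rfl fun h _ => ?_
  have : (c • F) ⟨γ.1, h⟩ h = c * F ⟨γ.1, h⟩ h := rfl
  rw [this]; ring

/-- The space `E₀`: elements of `Lam r` whose `h₀` component is the restriction of the node
coordinates to the class of `h₀`, and which satisfy all the constraints of the system. -/
noncomputable def E0 (t : Tree) (r : ℝ) (D : Sys Gam Ix) : Submodule ℝ (Lam r) where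
  carrier := {F | (∀ (k : ℕ) (h0 h : Sg k), F ⟨k, h0⟩ h = if h ∈ t.A k h0 then F ⟨k, h⟩ h else 0) ∧
    ∀ i : Ix, ip D.ρ (D.vh i) (hat t r F) = 0}
  add_mem' := by
    rintro F G ⟨hF1, hF2⟩ ⟨hG1, hG2⟩
    refine ⟨fun k h0 h => ?_, fun i => ?_⟩
    · have e1 : (F + G) ⟨k, h0⟩ h = F ⟨k, h0⟩ h + G ⟨k, h0⟩ h := rfl
      have e2 : (F + G) ⟨k, h⟩ h = F ⟨k, h⟩ h + G ⟨k, h⟩ h := rfl
      rw [e1, e2, hF1, hG1]
      split_ifs <;> simp
    · have : hat t r (F + G) = fun γ => hat t r F γ + hat t r G γ :=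
        funext fun γ => hat_add t r F G γ
      rw [this, ip_add (D.fin_supp i), hF2, hG2, add_zero]
  zero_mem' := by
    refine ⟨fun k h0 h => ?_, fun i => ?_⟩
    · have e1 : (0 : Lam r) ⟨k, h0⟩ h = 0 := rfl
      have e2 : (0 : Lam r) ⟨k, h⟩ h = 0 := rfl
      rw [e1, e2]; simp
    · have : hat t r (0 : Lam r) = fun γ => 0 := by
        funext γ
        unfold hat co
        refine Finset.sum_eq_zero fun h _ => ?_
        have e1 : (0 : Lam r) ⟨γ.1, h⟩ h = 0 := rfl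
        rw [e1]; ring
      rw [this]; simp [ip]
  smul_mem' := by
    rintro c F ⟨hF1, hF2⟩
    refine ⟨fun k h0 h => ?_, fun i => ?_⟩
    · have e1 : (c • F) ⟨k, h0⟩ h = c * F ⟨k, h0⟩ h := rfl
      have e2 : (c • F) ⟨k, h⟩ h = c * F ⟨k, h⟩ h := rfl
      rw [e1, e2, hF1]
      split_ifs <;> simp
    · have : hat t r (c • F) = fun γ => c * hat t r F γ :=
        funext fun γ => hat_smul t r c F γ
      rw [this, ip_smul, hF2, mul_zero]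

open Classical in
/-- the element `e_h` of `Lam r` -/
noncomputable def eL (t : Tree) (r : ℝ) (k : ℕ) (h : Sg k) : Lam r :=
  ∑ h0 ∈ t.A k h, lp.single (ENNReal.ofReal r) (⟨k, h0⟩ : Ix)
    (WithLp.toLp 1 (Pi.single h ((t.m k : ℝ) ^ (-(1 / r)))))

/-- the element `z_i` of `Lam r` -/
noncomputable def zL (t : Tree) (r : ℝ) (n : ℕ) (i : Sg n) : Lam r :=
  ∑ c, sgn c • eL t r (n + 1) (ch i c) + ∑ c, ∑ c', eL t r (n + 2) (ch (ch i c) c')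

/-- the element `y_j` of `Lam r` -/
noncomputable def yL (t : Tree) (r : ℝ) (n : ℕ) (j : Sg (n + 2)) : Lam r :=
  sgn (j (Fin.last (n + 1))) • zL t r (n + 1) (pr j) - zL t r n (pr (pr j))

end Pool.Agent.Helper37.BP
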