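import Pool.Agent.Helper37.BP.Stmt
import Pool.Agent.Helper37.BP.Defs2
import Pool.Graph.R_seed8.BAPp.Bridge

open MeasureTheory
open scoped ENNReal NNReal

set_option maxSynthPendingDepth 3

namespace Pool.Agent.Helper37.BP.Bridge

variable {Y X : Type} [NormedAddCommGroup Y] [NormedSpace ℝ Y]
    [NormedAddCommGroup X] [NormedSpace ℝ X]

theorem conj_ofReal {p : ℝ} (hp : 1 < p) :
    ENNReal.conjExponent (ENNReal.ofReal p) = ENNReal.ofReal (p / (p - 1)) := by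
  have h1 : (0 : ℝ) < p - 1 := by linarith
  unfold ENNReal.conjExponent
  have e : ENNReal.ofReal p - 1 = ENNReal.ofReal (p - 1) := by
    rw [ENNReal.ofReal_sub p zero_le_one, ENNReal.ofReal_one]
  rw [e, ← ENNReal.ofReal_inv_of_pos h1, ← ENNReal.ofReal_one,
    ← ENNReal.ofReal_add zero_le_one (inv_nonneg.2 h1.le)]
  congr 1
  field_simp
  ring

theorem ellNorm_ofReal {q : ℝ} (hq : 0 ≤ q) {n : ℕ} (a : Fin n → ℝ) :
    Stmt.ellNorm (ENNReal.ofReal q) a = ENNReal.ofReal ((∑ k, |a k| ^ q) ^ (1 / q)) := by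
  unfold Stmt.ellNorm
  rw [if_neg ENNReal.ofReal_ne_top, ENNReal.toReal_ofReal hq]

theorem weakNorm_ofReal {q : ℝ} (hq : 0 ≤ q) {n : ℕ} (x : Fin n → X) :
    Stmt.weakNorm (ENNReal.ofReal q) x = Pool.Agent.BAPp.weakNorm q x := by
  unfold Stmt.weakNorm Pool.Agent.BAPp.weakNorm
  simp only [ellNorm_ofReal hq]

theorem gNorm_ofReal {p : ℝ} (hp : 1 < p) (T : Y →L[ℝ] X) :
    Stmt.gNorm (ENNReal.ofReal p) T = Pool.Agent.BAPp.gNorm p T := by
  have h1 : (0 : ℝ) < p - 1 := by linarith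
  unfold Stmt.gNorm Pool.Agent.BAPp.gNorm
  simp only [ellNorm_ofReal (by linarith : 0 ≤ p), conj_ofReal hp,
    weakNorm_ofReal (by positivity : 0 ≤ p / (p - 1)), abs_norm]

theorem gNorm_top (T : Y →L[ℝ] X) : Stmt.gNorm ∞ T = gTop T := by
  have hc : ENNReal.conjExponent ∞ = ENNReal.ofReal 1 := by
    unfold ENNReal.conjExponent
    simp
  unfold Stmt.gNorm gTop
  have hw : ∀ {n : ℕ} (x : Fin n → X),
      Stmt.weakNorm (ENNReal.conjExponent ∞) x = Pool.Agent.BAPp.weakNorm 1 x := by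
    intro n x
    rw [hc]
    exact weakNorm_ofReal zero_le_one x
  have he : ∀ {n : ℕ} (ys : Fin n → (Y →L[ℝ] ℝ)),
      Stmt.ellNorm ∞ (fun k => ‖ys k‖) = ⨆ k, ENNReal.ofReal ‖ys k‖ := by
    intro n ys
    unfold Stmt.ellNorm
    rw [if_pos rfl]
    simp only [abs_norm]
  simp only [hw, he]

theorem incl_top {Ω : Type} [MeasurableSpace Ω] (μ : Measure Ω) [IsProbabilityMeasure μ]
    (f : Lp ℝ ∞ μ) : Pool.Agent.BAPp.Stmt.inclR μ ∞ f = f :=
  Lp.toLp_coeFn f (Lp.memLp f)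

theorem iNorm_top (T : Y →L[ℝ] X) : Pool.Agent.BAPp.Stmt.iNorm ∞ T = iTop T := by
  apply le_antisymm
  · unfold iTop
    refine le_iInf fun Ω => le_iInf fun mΩ => le_iInf fun μ => le_iInf fun hμ => le_iInf fun A =>
      le_iInf fun B => le_iInf fun h => ?_
    refine sInf_le ⟨Ω, mΩ, μ, hμ, A, B, ?_, rfl⟩
    intro y φ
    have e1 := h y φ
    have e3 := congrArg (fun g : Lp ℝ ∞ μ => (B g) φ) (incl_top μ (A y))
    exact e1.trans e3.symm
  · unfold Pool.Agent.BAPp.Stmt.iNorm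
    refine le_sInf ?_
    rintro c ⟨Ω, mΩ, μ, hμ, A, B, h, rfl⟩
    unfold iTop
    refine iInf_le_of_le Ω (iInf_le_of_le mΩ (iInf_le_of_le μ (iInf_le_of_le hμ
      (iInf_le_of_le A (iInf_le_of_le B (iInf_le_of_le ?_ le_rfl))))))
    intro y φ
    have e1 : Pool.Agent.BAPp.Stmt.ev φ (T y) = Pool.Agent.BAPp.Stmt.ev
      (Pool.Agent.BAPp.Stmt.ev B
        (Pool.Agent.BAPp.Stmt.inclR μ ∞ (Pool.Agent.BAPp.Stmt.ev A y))) φ := h y φ
    have e3 := congrArg (fun g : Lp ℝ ∞ μ => Pool.Agent.BAPp.Stmt.ev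
      (Pool.Agent.BAPp.Stmt.ev B g) φ) (incl_top μ (Pool.Agent.BAPp.Stmt.ev A y))
    exact e1.trans e3

end Pool.Agent.Helper37.BP.Bridge
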