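import Pool.Agent.Helper6.BAP.Comb

/-! Part COMB2: the concrete tree of helper6 has large classes. -/

open MeasureTheory
open scoped ENNReal NNReal

set_option maxSynthPendingDepth 3

namespace Pool.Agent.Helper37.BP

open Pool.Agent.Helper6.BAP

theorem tree_exists2 : ∃ t : Tree, ∀ k, 2 ^ (11 * k) ≤ 2 ^ 180 * t.m k ^ 12 := by
  refine ⟨{
    A := fun k h => cls (PA k (lab h)) h
    B := fun k j => cls (PB k (lab j)) j
    m := fun k => 2 ^ (11 * ((k - 4) / 12))
    b := fun k => 2 ^ ((k - 6) / 12)
    A_self := ?_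
    A_eq := ?_
    A_card := ?_
    B_self := ?_
    B_eq := ?_
    B_card := ?_
    m_mono := ?_
    m_le := ?_
    b_ge := ?_
    sep := ?_
    rel := ?_ }, ?_⟩
  · intro k h
    rw [mem_cls]
    exact fun i _ => rfl
  · intro k h h' hh
    have hl : lab h' = lab h := by
      rw [mem_cls] at hh
      refine lab_congr h h' (12 * ((k - 4) / 12)) (by omega) fun i hi => hh i ?_
      unfold PA
      omega
    simp only [hl]
    exact cls_eq _ h h' hh
  · intro k h
    rw [card_cls _ h (12 * ((k - 4) / 12)) (by omega) (fun i hi => hi.1)]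
    congr 1
    refine Eq.trans ?_ (count_ne (lab h) (lab_lt h) ((k - 4) / 12))
    exact count_and (fun i => i % 12 ≠ lab h) _
  · intro k h
    rw [mem_cls]
    exact fun i _ => rfl
  · intro k h h' hh
    have hl : lab h' = lab h := by
      rw [mem_cls] at hh
      refine lab_congr h h' (12 * ((k - 6) / 12)) (by omega) fun i hi => hh i ?_
      unfold PB
      omega
    simp only [hl]
    exact cls_eq _ h h' hh
  · intro k h
    rw [card_cls _ h (12 * ((k - 6) / 12)) (by omega) (fun i hi => hi.1)]
    congr 1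
    refine Eq.trans ?_ (count_eq (lab h) (lab_lt h) ((k - 6) / 12))
    exact count_and (fun i => i % 12 = lab h) _
  · intro k
    exact Nat.pow_le_pow_right (by norm_num) (by omega)
  · intro k
    show 2 ^ (11 * ((k + 1 - 4) / 12)) ≤ 2 ^ 11 * 2 ^ (11 * ((k - 4) / 12))
    rw [← pow_add]
    exact Nat.pow_le_pow_right (by norm_num) (by omega)
  · intro k
    show 2 ^ k ≤ 2 ^ 18 * (2 ^ ((k - 6) / 12)) ^ 12
    rw [← pow_mul, ← pow_add]
    exact Nat.pow_le_pow_right (by norm_num) (by omega)
  · intro k j j' h1 h2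
    rw [mem_cls] at h1 h2
    funext i
    by_cases hi : PB k (lab j) i
    · refine h2 i ?_
      unfold PA
      unfold PB at hi
      tauto
    · exact h1 i hi
  · intro k h h' c₁ c₂ c₁' c₂' hB
    rw [mem_cls] at hB
    obtain ⟨g1, g2⟩ := ch_agree_of _ _ _ _ _ hB
    obtain ⟨g3, g4⟩ := ch_agree_of _ _ _ _ _ g2
    have n1 : ¬ PB (k + 2) (lab (ch (ch h c₁) c₂)) (k + 1) := by
      unfold PB
      omega
    have n2 : ¬ PB (k + 2) (lab (ch (ch h c₁) c₂)) k := by
      unfold PB
      omega
    refine ⟨g3 n2, g1 n1, ?_, ?_, ?_⟩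
    · intro c
      rw [mem_cls]
      have := ch_agree _ _ _ c g4
      intro i hi
      refine this i fun hq => hi ?_
      have hd := lab_div (ch h c)
      have hd2 := lab_div (ch (ch h c₁) c₂)
      unfold PB at hq
      unfold PA
      refine ⟨by omega, ?_⟩
      rw [hq.2]
      intro he
      rw [he] at hd2
      omega
    · intro c c' hc
      rw [mem_cls]
      have := ch_agree _ _ _ c' (ch_agree _ _ _ c g4)
      intro i hi
      refine this i fun hq => hi ?_
      unfold PB at hq
      unfold PA
      refine ⟨by omega, ?_⟩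
      rw [hq.2, lab_ch_ch, lab_ch_ch]
      intro he
      apply hc
      revert he
      cases c <;> cases c' <;> cases c₁ <;> cases c₂ <;> simp <;> omega
    · intro c c'
      rw [mem_cls]
      have := ch_agree _ _ _ c' (ch_agree _ _ _ c (ch_agree _ _ _ c₁ g4))
      intro i hi
      refine this i fun hq => hi ?_
      have hd := lab_div (ch (ch (ch h c₁) c) c')
      have hd2 := lab_div (ch (ch h c₁) c₂)
      unfold PB at hq
      unfold PA
      refine ⟨by omega, ?_⟩
      rw [hq.2]
      intro he
      rw [he] at hd2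
      omega
  · intro k
    show 2 ^ (11 * k) ≤ 2 ^ 180 * (2 ^ (11 * ((k - 4) / 12))) ^ 12
    rw [← pow_mul, ← pow_add]
    exact Nat.pow_le_pow_right (by norm_num) (by omega)

end Pool.Agent.Helper37.BP
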