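import Mathlib
import Pool.Graph.R_seed8.BAPp.Defs
import Pool.Graph.R_seed8.BAPp.Khin

/-! Definitions for the negative answer to MP_6f6997_an (inner versus outer inequality for
`BAP_p`), case `2 < p < ∞`. -/

open MeasureTheory
open scoped ENNReal NNReal

set_option maxSynthPendingDepth 3

namespace Pool.Agent.Helper37.BP

open Pool.Agent.BAPp (sgn)

/-- Weighted pairing `⟨v, f⟩ = ∑ ρ v f` (used only when `v` or `f` has finite support). -/
noncomputable def ip {Γ : Type} (ρ : Γ → ℝ) (v f : Γ → ℝ) : ℝ := ∑' γ, ρ γ * (v γ * f γ)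

/-- Rademacher coefficient: the average of `sgn (ω i) * a ω` over all sign vectors. -/
noncomputable def av {ι : Type} [Fintype ι] [DecidableEq ι] (a : (ι → Bool) → ℝ) (i : ι) : ℝ :=
  (∑ ω : ι → Bool, sgn (ω i) * a ω) / 2 ^ Fintype.card ι

/-- The extension property for operators from subspaces of `ℓ_q^n`, with constant `lam`. -/
def LqEP (q lam : ℝ) (X : Type) [NormedAddCommGroup X] [NormedSpace ℝ X] : Prop :=
  ∀ (n : ℕ) (S : Submodule ℝ (Fin n → ℝ)) (u : S →ₗ[ℝ] X),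
    (∀ s : S, ‖u s‖ ≤ (∑ j, |(s : Fin n → ℝ) j| ^ q) ^ (1 / q)) →
    ∃ b : Fin n → X, (∀ s : S, u s = ∑ j, (s : Fin n → ℝ) j • b j) ∧
      ∀ t : Fin n → ℝ, ‖∑ j, t j • b j‖ ≤ lam * (∑ j, |t j| ^ q) ^ (1 / q)

/-- A weighted orthonormal system of finitely supported, locally finite functions. -/
structure Sys (Γ I : Type) where
  ρ : Γ → ℝ
  vh : I → Γ → ℝ
  pos : ∀ γ, 0 < ρ γ
  summable : Summable ρ
  le_one : ∑' γ, ρ γ ≤ 1
  fin_supp : ∀ i, (Function.support (vh i)).Finite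
  loc_fin : ∀ γ, {i | vh i γ ≠ 0}.Finite
  unit : ∀ i, ip ρ (vh i) (vh i) = 1
  ortho : ∀ i j, i ≠ j → ip ρ (vh i) (vh j) = 0

/-- All sign cubes over finite subsets of `I`. -/
abbrev Om (I : Type) : Type := (F : Finset I) × (F → Bool)

theorem ip_add {Γ : Type} {ρ v : Γ → ℝ} (hv : (Function.support v).Finite) (f g : Γ → ℝ) :
    ip ρ v (fun γ => f γ + g γ) = ip ρ v f + ip ρ v g := by
  unfold ip
  rw [← Summable.tsum_add]
  · exact tsum_congr fun γ => by ring
  · refine summable_of_hasFiniteSupport (hv.subset fun γ h => ?_)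
    simp only [Function.mem_support] at h ⊢
    intro h0; apply h; rw [h0]; ring
  · refine summable_of_hasFiniteSupport (hv.subset fun γ h => ?_)
    simp only [Function.mem_support] at h ⊢
    intro h0; apply h; rw [h0]; ring

theorem ip_smul {Γ : Type} {ρ v : Γ → ℝ} (c : ℝ) (f : Γ → ℝ) :
    ip ρ v (fun γ => c * f γ) = c * ip ρ v f := by
  unfold ip
  rw [← tsum_mul_left]
  exact tsum_congr fun γ => by ring

/-- The space `X`: bounded functions `x` on `Γ ⊕ Om I` whose `Γ`-part `f` and sign-cube part `a`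
satisfy `⟨v_i, f⟩ = E [a · ω_i]` on every sign cube over a finite set containing `i`. -/
noncomputable def XX {Γ I : Type} [DecidableEq I] (D : Sys Γ I) :
    Submodule ℝ (lp (fun _ : Γ ⊕ Om I => ℝ) ∞) where
  carrier := {x | ∀ (F : Finset I) (i : F), ip D.ρ (D.vh i) (fun γ => x (Sum.inl γ)) =
    av (fun ω : F → Bool => x (Sum.inr ⟨F, ω⟩)) i}
  add_mem' := by
    intro x y hx hy F i
    have h1 := hx F i
    have h2 := hy F i
    have e1 : ip D.ρ (D.vh i) (fun γ => (x + y) (Sum.inl γ)) =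
        ip D.ρ (D.vh i) (fun γ => x (Sum.inl γ)) + ip D.ρ (D.vh i) (fun γ => y (Sum.inl γ)) :=
      ip_add (D.fin_supp i) _ _
    rw [e1, h1, h2]
    unfold av
    rw [← add_div, ← Finset.sum_add_distrib]
    congr 1
    refine Finset.sum_congr rfl fun ω _ => ?_
    exact (mul_add (sgn (ω i)) _ _).symm
  zero_mem' := by
    intro F i
    simp [ip, av]
  smul_mem' := by
    intro c x hx F i
    have h1 := hx F i
    have e1 : ip D.ρ (D.vh i) (fun γ => (c • x) (Sum.inl γ)) =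
        c * ip D.ρ (D.vh i) (fun γ => x (Sum.inl γ)) := ip_smul c _
    rw [e1, h1]
    unfold av
    rw [← mul_div_assoc, Finset.mul_sum]
    congr 1
    refine Finset.sum_congr rfl fun ω _ => ?_
    exact (mul_left_comm (sgn (ω i)) c _).symm

/-- What the concrete system provides for the failure of the outer inequality. -/
def OutData (p q : ℝ) {Γ I : Type} (D : Sys Γ I) : Prop :=
  ∀ ε : ℝ, 0 < ε → ∃ (m : ℕ) (φ z : Fin m → Γ → ℝ) (G : Type) (_ : Countable G)
    (η x : G → Γ → ℝ) (d : G → ℝ),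
    (∀ i, (Function.support (φ i)).Finite) ∧
    (∀ i, (Function.support (z i)).Finite) ∧
    (∀ i j, ip D.ρ (D.vh j) (z i) = 0) ∧
    ∑ i, ip D.ρ (φ i) (z i) = 1 ∧
    (∀ g, (Function.support (η g)).Finite) ∧
    (∀ g, ∑' γ, D.ρ γ * |η g γ| ^ p ≤ 1) ∧
    (∀ g j, ip D.ρ (D.vh j) (x g) = 0) ∧
    (∀ γ, {g | x g γ ≠ 0}.Finite) ∧ (∀ γ, ∑' g, |x g γ| ^ q ≤ 1) ∧
    (∀ g, 0 ≤ d g) ∧ Summable (fun g => d g ^ p) ∧ 0 < ∑' g, d g ^ p ∧
    ∑' g, d g ^ p ≤ ε ^ p ∧
    ∀ y : Γ → ℝ, (∀ j, ip D.ρ (D.vh j) y = 0) → ∀ γ,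
      ∑ i, ip D.ρ (φ i) y * z i γ = ∑' g, d g * ip D.ρ (η g) y * x g γ

end Pool.Agent.Helper37.BP
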