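import Pool.Agent.Helper78.BAP.Ext
import Pool.Agent.Helper12.BAP.DualA
import Pool.Agent.Helper12.BAP.Wop
import Pool.Agent.Helper51.BAP.ClaimB
import Pool.Agent.Helper51.BAP.Pietsch
import Pool.Agent.Helper72.BAP.Inner
import Pool.Agent.Helper31.BAP.LPB
import Pool.Agent.Helper38.BAP.Out
import Pool.Agent.Helper88.BAP.SE
import Pool.Agent.Helper92.BAP.XC

/-! Assembly for finite `p > 2`. -/

open MeasureTheory
open scoped ENNReal NNReal

set_option maxSynthPendingDepth 3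

namespace Pool.Agent.Helper37.BP

open Pool.Agent.BAPp (gNorm iNorm FiniteRank)

theorem main_fin (p : ℝ) (hp : 2 < p) [Fact (1 ≤ ENNReal.ofReal p)] :
    ∃ (X : Type) (_ : NormedAddCommGroup X) (_ : NormedSpace ℝ X) (_ : CompleteSpace X),
      (∃ lam : ℝ≥0, 1 ≤ lam ∧ ∀ S : X →L[ℝ] X, FiniteRank S → gNorm p S ≤ lam * iNorm p S) ∧
      ∀ lam : ℝ≥0, ∃ (Y : Type) (_ : NormedAddCommGroup Y) (_ : NormedSpace ℝ Y)
        (_ : CompleteSpace Y) (T : Y →L[ℝ] X), FiniteRank T ∧ lam * iNorm p T < gNorm p T := by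
  have hp1 : 1 < p := by linarith
  obtain ⟨q, hpq⟩ : ∃ q, p.HolderConjugate q := ⟨_, Real.HolderConjugate.conjExponent hp1⟩
  have : Fact (1 ≤ ENNReal.ofReal q) := ⟨ENNReal.one_le_ofReal.2 hpq.symm.lt.le⟩
  obtain ⟨lam, hlam, hext⟩ := Pool.Agent.Helper78.BAP.ext p q hpq hp.le
  obtain ⟨Γ, I, hI, D, hD⟩ := Pool.Agent.Helper88.BAP.sys p q hpq hp
  refine ⟨XX D, inferInstance, inferInstance,
    (Pool.Agent.Helper92.BAP.XX_closed D).completeSpace_coe, ⟨lam.toNNReal, ?_, ?_⟩, ?_⟩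
  · exact Real.one_le_toNNReal.2 hlam
  · intro S hS
    have h := Pool.Agent.Helper72.BAP.inner_of (fun p q hpq {X} _ _ E _ S =>
        Pool.Agent.Helper12.BAP.dualA p q hpq E S)
      (fun p q hpq {X} _ _ E _ Λ hΛ ε hε => Pool.Agent.Helper51.BAP.pietsch p q hpq E Λ hΛ ε hε)
      (fun {X F} _ _ _ _ _ m s xs c hc R κ hκ hR =>
        Pool.Agent.Helper51.BAP.claimB m s xs c hc R κ hκ hR)
      (fun p q hpq _ {X Ω} _ _ _ μ _ A n b lam hlam hb =>
        Pool.Agent.Helper31.BAP.lpb p q hpq μ A n b lam hlam hb)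
      p q hpq lam hlam (hext Γ I D) S hS
    exact h
  · intro lam'
    exact Pool.Agent.Helper38.BAP.outer_of_wop p q hpq
      (Pool.Agent.Helper12.BAP.wop p q hpq hp.le) D hD lam'

end Pool.Agent.Helper37.BP
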