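import Pool.Agent.Helper37.BP.Defs2
import Pool.Agent.Helper12.BAP.Wop
import Pool.Agent.Helper38.BAP.Out

/-! Part OUTT: failure of the outer inequality at `p = ∞`. -/

open MeasureTheory
open scoped ENNReal NNReal

set_option maxSynthPendingDepth 3

namespace Pool.Agent.Helper37.BP

open Pool.Agent.BAPp (sgn weakNorm gNorm FiniteRank)
open Pool.Agent.Helper38.BAP (fn fn_norm fn_apply gfw WopStmt)

/-- statement of GLT -/
def SGlt : Prop :=
  ∀ (p q : ℝ) (_ : p.HolderConjugate q) {Y X : Type} [NormedAddCommGroup Y]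
    [NormedSpace ℝ Y] [NormedAddCommGroup X] [NormedSpace ℝ X] (C' M : ℝ) (_ : 1 ≤ C')
    (_ : 0 < M) (_ : LinfDom p C' X) (u : X →ₗ[ℝ] Y)
    (_ : ∀ (n : ℕ) (xs : Fin n → X),
      (∀ f : X →L[ℝ] ℝ, ‖f‖ ≤ 1 → ∑ k, |f (xs k)| ^ q ≤ 1) → ∑ k, ‖u (xs k)‖ ^ q ≤ M ^ q)
    (T : Y →L[ℝ] X) {m : ℕ} (al : Fin m → (Y →L[ℝ] ℝ)) (v : Fin m → Y)
    (_ : ∀ y, u (T y) = ∑ j, al j y • v j) (_ : ∑ j, al j (v j) = 1),
    ENNReal.ofReal (1 / (C' * M)) ≤ gTop T

/-- statement of ILT -/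
def SIlt : Prop :=
  ∀ (p : ℝ) (_ : 1 < p) [Fact (1 ≤ ENNReal.ofReal p)] {Y X Γ : Type}
    [Countable Γ] [NormedAddCommGroup Y] [NormedSpace ℝ Y] [NormedAddCommGroup X] [NormedSpace ℝ X]
    (d : Γ → ℝ) (_ : ∀ g, 0 ≤ d g) (_ : Summable (fun g => d g ^ p))
    (_ : 0 < ∑' g, d g ^ p)
    (η : Γ → (Y →L[ℝ] ℝ)) (_ : ∀ g, ‖η g‖ ≤ 1)
    (R : lp (fun _ : Γ => ℝ) (ENNReal.ofReal p) →L[ℝ] X) (_ : ‖R‖ ≤ 1)
    (T : Y →L[ℝ] X)
    (_ : ∀ (y : Y) (a : lp (fun _ : Γ => ℝ) (ENNReal.ofReal p)),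
      (∀ g, (a : Γ → ℝ) g = d g * η g y) → T y = R a),
    iTop T ≤ ENNReal.ofReal ((∑' g, d g ^ p) ^ (1 / p))

theorem outer_top_of (hG : SGlt) (hI : SIlt) (p q : ℝ) (hpq : p.HolderConjugate q) (hp : 2 ≤ p)
    [Fact (1 ≤ ENNReal.ofReal p)] {Γ I : Type} [DecidableEq I] (D : Sys Γ I)
    {E : Type} [NormedAddCommGroup E] [NormedSpace ℝ E] (Φ : E →L[ℝ] XX D)
    (hD : OutDataTop p D Φ) {X : Type} [NormedAddCommGroup X] [NormedSpace ℝ X]
    (ι : E →ₗᵢ[ℝ] X) (Ψ : X →L[ℝ] XX D) (hΨ : ‖Ψ‖ ≤ 1) (hc : ∀ e, Ψ (ι e) = Φ e)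
    (C' : ℝ) (hC' : 1 ≤ C') (hdom : LinfDom p C' X) (lam : ℝ≥0) :
    ∃ (Y : Type) (_ : NormedAddCommGroup Y) (_ : NormedSpace ℝ Y) (_ : CompleteSpace Y)
      (T : Y →L[ℝ] X), FiniteRank T ∧ (lam : ℝ≥0∞) * iTop T < gTop T := by
  classical
  have hp1 : 1 < p := hpq.lt
  have hp0 : 0 < p := by linarith
  have hF : Fact (1 ≤ ENNReal.ofReal q) := ⟨ENNReal.one_le_ofReal.2 hpq.symm.lt.le⟩
  have hW : WopStmt q := Pool.Agent.Helper12.BAP.wop p q hpq hp
  obtain ⟨M, hM, hW⟩ := hW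
  obtain ⟨YY, W, hYY, hcl, hWx, hWs⟩ := hW Γ I D
  have hC0 : 0 < C' := by linarith
  set ε : ℝ := 1 / (2 * (lam + 1) * (C' * M)) with hε
  have hlam0 : (0 : ℝ) ≤ lam := lam.2
  have hε0 : 0 < ε := by positivity
  obtain ⟨m, φ, z, G, cG, η, d, R, hφ, hzo, htr, hηf, hη1, hR1, hd0, hds, hdpos,
    hdle, hrep⟩ := hD ε hε0
  haveI : Countable G := cG
  let Z : Fin m → X := fun i => ι (z i)
  let al : Fin m → (YY →L[ℝ] ℝ) := fun i => (fn D p q hpq (φ i) (hφ i)).comp YY.subtypeL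
  let T : YY →L[ℝ] X := ∑ i, (al i).smulRight (Z i)
  have hTy : ∀ y, T y = ∑ i, al i y • Z i := by
    intro y
    simp only [T, sum_apply, ContinuousLinearMap.smulRight_apply]
  let W' : X →ₗ[ℝ] YY := W ∘ₗ (Ψ : X →ₗ[ℝ] XX D)
  have hW's : ∀ (n : ℕ) (xs : Fin n → X),
      (∀ f : X →L[ℝ] ℝ, ‖f‖ ≤ 1 → ∑ k, |f (xs k)| ^ q ≤ 1) → ∑ k, ‖W' (xs k)‖ ^ q ≤ M ^ q := by
    intro n xs h
    refine hWs n (fun k => Ψ (xs k)) fun f hf => ?_
    refine h (f.comp Ψ) ?_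
    calc ‖f.comp Ψ‖ ≤ ‖f‖ * ‖Ψ‖ := ContinuousLinearMap.opNorm_comp_le _ _
      _ ≤ 1 * 1 := by gcongr
      _ = 1 := one_mul _
  refine ⟨YY, inferInstance, inferInstance, hcl.completeSpace_coe, T, ?_, ?_⟩
  · have h1 : LinearMap.range (T : YY →ₗ[ℝ] X) ≤ Submodule.span ℝ (Set.range Z) := by
      rintro _ ⟨y, rfl⟩
      show T y ∈ _
      rw [hTy]
      exact Submodule.sum_mem _ fun i _ => Submodule.smul_mem _ _ (Submodule.subset_span ⟨i, rfl⟩)
    haveI : FiniteDimensional ℝ (Submodule.span ℝ (Set.range Z)) :=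
      FiniteDimensional.span_of_finite ℝ (Set.finite_range Z)
    exact Submodule.finiteDimensional_of_le h1
  · have hlow : ENNReal.ofReal (1 / (C' * M)) ≤ gTop T := by
      refine hG p q hpq C' M hC' hM hdom W' hW's T al (fun i => W' (Z i)) ?_ ?_
      · intro y
        rw [hTy, map_sum]
        simp
      · rw [← htr]
        refine Finset.sum_congr rfl fun i _ => ?_
        show ip D.ρ (φ i) (gfw q D (W (Ψ (ι (z i))))) = _
        rw [hc]
        congr 1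
        funext γ
        exact hWx (Φ (z i)) (hzo i) γ
    have hup : iTop T ≤ ENNReal.ofReal ((∑' g, d g ^ p) ^ (1 / p)) := by
      refine hI p hp1 d hd0 hds hdpos
        (fun g => (fn D p q hpq (η g) (hηf g)).comp YY.subtypeL) ?_
        (ι.toContinuousLinearMap.comp R) ?_ T ?_
      · intro g
        calc ‖(fn D p q hpq (η g) (hηf g)).comp YY.subtypeL‖
            ≤ ‖fn D p q hpq (η g) (hηf g)‖ * ‖YY.subtypeL‖ :=
              ContinuousLinearMap.opNorm_comp_le _ _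
          _ ≤ 1 * 1 := by
              gcongr
              · exact fn_norm D p q hpq (η g) (hηf g) (hη1 g)
              · exact Submodule.norm_subtypeL_le YY
          _ = 1 := one_mul _
      · calc ‖ι.toContinuousLinearMap.comp R‖ ≤ ‖ι.toContinuousLinearMap‖ * ‖R‖ :=
              ContinuousLinearMap.opNorm_comp_le _ _
          _ ≤ 1 * 1 := by
              gcongr
              exact ι.norm_toContinuousLinearMap_le
          _ = 1 := one_mul _
      · intro y a ha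
        rw [hTy]
        have h1 := hrep (gfw q D y) ((hYY y).1 y.2) a ha
        show _ = ι (R a)
        rw [h1, map_sum]
        refine Finset.sum_congr rfl fun i _ => ?_
        rw [map_smul]
        rfl
    have hdS0 : 0 ≤ ∑' g, d g ^ p := hdpos.le
    have hdε : (∑' g, d g ^ p) ^ (1 / p) ≤ ε := by
      calc (∑' g, d g ^ p) ^ (1 / p) ≤ (ε ^ p) ^ (1 / p) :=
            Real.rpow_le_rpow hdS0 hdle (by positivity)
        _ = ε := by
            rw [← Real.rpow_mul hε0.le, mul_one_div_cancel hp0.ne', Real.rpow_one]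
    calc (lam : ℝ≥0∞) * iTop T ≤ lam * ENNReal.ofReal ε := by
          gcongr
          exact hup.trans (ENNReal.ofReal_le_ofReal hdε)
      _ = ENNReal.ofReal (lam * ε) := by
          rw [ENNReal.ofReal_mul hlam0, ENNReal.ofReal_coe_nnreal]
      _ < ENNReal.ofReal (1 / (C' * M)) := by
          rw [ENNReal.ofReal_lt_ofReal_iff (by positivity), hε]
          rw [mul_one_div, div_lt_div_iff₀ (by positivity) (by positivity)]
          have : 0 < C' * M := by positivity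
          nlinarith
      _ ≤ gTop T := hlow

end Pool.Agent.Helper37.BP
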