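import Pool.Agent.Helper49.BAP.EE
import Pool.Agent.Helper37.BP.OutT
import Pool.Agent.Helper78.BAP.Ext
import Pool.Agent.Helper92.BAP.XC
import Pool.Agent.Helper5.BAP.EA
import Pool.Agent.Helper84.BAP.CS
import Pool.Agent.Helper84.BAP.CQ
import Pool.Agent.Helper84.BAP.Step
import Pool.Agent.H25.BAP.LIM
import Pool.Agent.H25.BAP.GLT
import Pool.Agent.Helper77.BAP.ILT
import Pool.Agent.Helper30.BAP.MAU
import Pool.Agent.Helper72.BAP.LpbTop

/-! Assembly for `p = ∞`. -/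

open MeasureTheory
open scoped ENNReal NNReal

set_option maxSynthPendingDepth 3

namespace Pool.Agent.Helper37.BP

open Pool.Agent.BAPp (sgn weakNorm gNorm FiniteRank)

theorem cot_mono {r C C' : ℝ} (hC : C ≤ C') {X : Type} [NormedAddCommGroup X] [NormedSpace ℝ X]
    (h : Cot r C X) : Cot r C' X := by
  intro n x
  refine (h n x).trans (mul_le_mul_of_nonneg_right hC ?_)
  exact div_nonneg (Finset.sum_nonneg fun _ _ => norm_nonneg _) (by positivity)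

theorem cot_sub {r C : ℝ} {X : Type} [NormedAddCommGroup X] [NormedSpace ℝ X]
    (h : Cot r C X) (S : Submodule ℝ X) : Cot r C S := by
  intro n x
  have h1 := h n (fun i => (x i : X))
  have h2 : ∀ ω : Fin n → Bool, ‖∑ i, sgn (ω i) • x i‖ = ‖∑ i, sgn (ω i) • (x i : X)‖ := by
    intro ω
    have e : ((∑ i, sgn (ω i) • x i : S) : X) = ∑ i, sgn (ω i) • (x i : X) := by
      simp only [Submodule.coe_sum, Submodule.coe_smul]
    rw [← e]
    rfl
  simp only [h2]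
  exact h1

theorem main_top : ∃ (X : Type) (_ : NormedAddCommGroup X) (_ : NormedSpace ℝ X)
    (_ : CompleteSpace X),
    (∃ lam : ℝ≥0, 1 ≤ lam ∧ ∀ S : X →L[ℝ] X, FiniteRank S → gTop S ≤ lam * iTop S) ∧
    ∀ lam : ℝ≥0, ∃ (Y : Type) (_ : NormedAddCommGroup Y) (_ : NormedSpace ℝ Y)
      (_ : CompleteSpace Y) (T : Y →L[ℝ] X), FiniteRank T ∧ (lam : ℝ≥0∞) * iTop T < gTop T := by
  have hpq : (4 : ℝ).HolderConjugate (4 / 3) := by
    rw [Real.holderConjugate_iff]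
    norm_num
  have : Fact (1 ≤ ENNReal.ofReal 4) := ⟨ENNReal.one_le_ofReal.2 (by norm_num)⟩
  have : Fact (1 ≤ ENNReal.ofReal (4 / 3)) := ⟨ENNReal.one_le_ofReal.2 (by norm_num)⟩
  have : Fact (1 ≤ ENNReal.ofReal 3) := ⟨ENNReal.one_le_ofReal.2 (by norm_num)⟩
  obtain ⟨t, D, Φ, hΦ, hD⟩ := Pool.Agent.Helper49.BAP.sysTop 4 (4 / 3) 3 hpq (by norm_num) (by norm_num)
  obtain ⟨lam0, hlam0, hext⟩ := Pool.Agent.Helper78.BAP.ext 4 (4 / 3) hpq (by norm_num)
  have hZ : LqEP (4 / 3) lam0 (XX D) := hext _ _ D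
  have : CompleteSpace (XX D) := (Pool.Agent.Helper92.BAP.XX_closed D).completeSpace_coe
  obtain ⟨η0, C0, hη0, hη01, hstep⟩ := Pool.Agent.Helper84.BAP.step 4 (4 / 3) 3 hpq (by norm_num) (by norm_num)
  obtain ⟨η, hη⟩ : ∃ η, η = min η0 (1 / lam0) := ⟨_, rfl⟩
  obtain ⟨C, hC⟩ : ∃ C, C = max C0 2 := ⟨_, rfl⟩
  have hlam0' : 0 < lam0 := by linarith
  have hηpos : 0 < η := by rw [hη]; positivity
  have hηle : η ≤ η0 := by rw [hη]; exact min_le_left _ _
  have hηle1 : η ≤ 1 := hηle.trans hη01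
  have hηlam : η * lam0 ≤ 1 := by
    have h1 : η ≤ 1 / lam0 := by rw [hη]; exact min_le_right _ _
    calc η * lam0 ≤ 1 / lam0 * lam0 := mul_le_mul_of_nonneg_right h1 hlam0'.le
      _ = 1 := by field_simp
  have hC0 : C0 ≤ C := by rw [hC]; exact le_max_left _ _
  have hC2 : 2 ≤ C := by rw [hC]; exact le_max_right _ _
  have hcE : CompleteSpace (E0 t 3 D) := (Pool.Agent.Helper5.BAP.E0_closed t 3 D).completeSpace_coe
  have hcot : Cot 3 C (E0 t 3 D) := by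
    refine cot_sub (cot_mono hC2 ?_) _
    exact Pool.Agent.Helper84.BAP.cot_lp 3 3 2 (by norm_num) le_rfl (by norm_num) _ fun γ =>
      Pool.Agent.Helper84.BAP.cot_PiLp 1 (by norm_num) 3 (by norm_num)
  obtain ⟨X, i1, i2, i3, ι, Ψ, hX, hΨ, hcomp, hlq⟩ := Pool.Agent.H25.BAP.limit (4 / 3) 3 η C (by norm_num)
    (by norm_num) (by linarith) hηpos
    (hstep η C hηpos hηle hC0 (XX D) lam0 hlam0'.le hZ hηlam)
    { X := E0 t 3 D, cot := hcot, Ψ := Φ, norm_le := hΦ }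
  obtain ⟨C', hC', hdom⟩ := Pool.Agent.Helper30.BAP.maurey 3 4 C (by norm_num) (by norm_num) hX
  have h4 : 1 ≤ 4 / η := by
    rw [le_div_iff₀ hηpos]; linarith
  refine ⟨X, i1, i2, i3, ⟨(C' * (4 / η)).toNNReal, ?_, fun S hS => ?_⟩, fun lam => ?_⟩
  · rw [Real.one_le_toNNReal]
    nlinarith
  · exact Pool.Agent.Helper72.BAP.inner_top 4 (4 / 3) hpq (4 / η) C' h4 hC' hlq hdom S hS
  · exact outer_top_of @Pool.Agent.H25.BAP.gTop_lower @Pool.Agent.Helper77.BAP.iTop_le_diag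
      4 (4 / 3) hpq (by norm_num) D Φ hD ι Ψ hΨ hcomp C' hC' hdom lam

end Pool.Agent.Helper37.BP
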