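import Mathlib
import Pool.Graph.R_seed8.BAPp.Stmt

/-! The definitions used in the final statement of MP_6f6997_an, for all `1 ≤ p ≤ ∞`.
The `p`-integral norm `iNorm` is the one of the library file imported here. -/

open MeasureTheory
open scoped ENNReal NNReal

set_option maxSynthPendingDepth 3

namespace Pool.Agent.Helper37.BP.Stmt

open Classical in
/-- The `ℓ_q` norm of a finite sequence of real numbers, for `1 ≤ q ≤ ∞`: it is `max |a_k|` for
`q = ∞` and `(∑ |a_k|^q)^{1/q}` for finite `q`. -/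
noncomputable def ellNorm (q : ℝ≥0∞) {n : ℕ} (a : Fin n → ℝ) : ℝ≥0∞ :=
  if q = ∞ then ⨆ k, ENNReal.ofReal |a k|
  else ENNReal.ofReal ((∑ k, |a k| ^ q.toReal) ^ (1 / q.toReal))

/-- The weak `ℓ_q` norm `sup_{‖f‖ ≤ 1} ‖(f(x_k))‖_q` of a finite family in `X`. -/
noncomputable def weakNorm (q : ℝ≥0∞) {X : Type} [NormedAddCommGroup X] [NormedSpace ℝ X]
    {n : ℕ} (x : Fin n → X) : ℝ≥0∞ :=
  ⨆ (f : X →L[ℝ] ℝ) (_ : ‖f‖ ≤ 1), ellNorm q (fun k => f (x k))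

/-- The Chevet–Saphar norm `g_p` of a finite rank operator `T : Y → X`, for `1 ≤ p ≤ ∞`: the
infimum of `‖(‖y_k*‖)‖_p · ‖(x_k)‖^w_{p*}` over all representations `T = ∑ y_k* ⊗ x_k`, where `p*`
is the conjugate exponent. -/
noncomputable def gNorm (p : ℝ≥0∞) {Y X : Type} [NormedAddCommGroup Y] [NormedSpace ℝ Y]
    [NormedAddCommGroup X] [NormedSpace ℝ X] (T : Y →L[ℝ] X) : ℝ≥0∞ :=
  ⨅ (n : ℕ) (ys : Fin n → (Y →L[ℝ] ℝ)) (xs : Fin n → X) (_ : ∀ y, T y = ∑ k, ys k y • xs k),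
    ellNorm p (fun k => ‖ys k‖) * weakNorm (ENNReal.conjExponent p) xs

end Pool.Agent.Helper37.BP.Stmt
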