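import Pool.Agent.Helper37.BP.Defs

/-! Definitions for the concrete (tree) system of MP_6f6997_an, case `2 < p < ∞`. -/

open MeasureTheory
open scoped ENNReal NNReal

set_option maxSynthPendingDepth 3

namespace Pool.Agent.Helper37.BP

open Pool.Agent.BAPp (sgn)

/-- nodes at level `k` of the binary tree -/
abbrev Sg (k : ℕ) : Type := Fin k → Bool

/-- the child `c` of the node `h` -/
def ch {k : ℕ} (h : Sg k) (c : Bool) : Sg (k + 1) := Fin.snoc (α := fun _ => Bool) h c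

/-- the parent of a node -/
def pr {k : ℕ} (j : Sg (k + 1)) : Sg k := Fin.init (α := fun _ => Bool) j

@[simp] theorem pr_ch {k : ℕ} (h : Sg k) (c : Bool) : pr (ch h c) = h := by
  unfold pr ch; exact Fin.init_snoc (α := fun _ => Bool) c h

@[simp] theorem ch_last {k : ℕ} (h : Sg k) (c : Bool) : ch h c (Fin.last k) = c := by
  unfold ch; exact Fin.snoc_last (α := fun _ => Bool) c h

theorem ch_pr {k : ℕ} (j : Sg (k + 1)) : ch (pr j) (j (Fin.last k)) = j := by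
  unfold pr ch; exact Fin.snoc_init_self (α := fun _ => Bool) j

/-- Two equivalence relations (given by their classes) on every level of the binary tree. -/
structure Tree where
  A : ∀ k, Sg k → Finset (Sg k)
  B : ∀ k, Sg k → Finset (Sg k)
  m : ℕ → ℕ
  b : ℕ → ℕ
  A_self : ∀ k h, h ∈ A k h
  A_eq : ∀ k h h', h' ∈ A k h → A k h' = A k h
  A_card : ∀ k h, (A k h).card = m k
  B_self : ∀ k j, j ∈ B k j
  B_eq : ∀ k j j', j' ∈ B k j → B k j' = B k j
  B_card : ∀ k j, (B k j).card = b k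
  m_mono : ∀ k, m k ≤ m (k + 1)
  m_le : ∀ k, m (k + 1) ≤ 2 ^ 11 * m k
  b_ge : ∀ k, 2 ^ k ≤ 2 ^ 18 * b k ^ 12
  sep : ∀ k j j', j' ∈ B k j → j' ∈ A k j → j' = j
  rel : ∀ k (h h' : Sg k) (c₁ c₂ c₁' c₂' : Bool),
    ch (ch h' c₁') c₂' ∈ B (k + 2) (ch (ch h c₁) c₂) →
    c₁' = c₁ ∧ c₂' = c₂ ∧
    (∀ c, ch h' c ∈ A (k + 1) (ch h c)) ∧
    (∀ c c', ¬ (c = c₁ ∧ c' = c₂) → ch (ch h' c) c' ∈ A (k + 2) (ch (ch h c) c')) ∧
    (∀ c c', ch (ch (ch h' c₁) c) c' ∈ A (k + 3) (ch (ch (ch h c₁) c) c'))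

/-- the index set `Γ`: a level `k`, a node of level `k` and a choice of signs on level `k` -/
abbrev Gam : Type := (k : ℕ) × (Sg k × (Sg k → Bool))

/-- the function on `Gam` which equals `F` on level `k` and vanishes on the other levels -/
noncomputable def lev (k : ℕ) (F : Sg k × (Sg k → Bool) → ℝ) : Gam → ℝ :=
  fun γ => (Pi.single k F : ∀ k, (Sg k × (Sg k → Bool) → ℝ)) γ.1 γ.2

theorem lev_same (k : ℕ) (F : Sg k × (Sg k → Bool) → ℝ) (g : Sg k × (Sg k → Bool)) :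
    lev k F ⟨k, g⟩ = F g := by
  unfold lev; simp

theorem lev_ne (k : ℕ) (F : Sg k × (Sg k → Bool) → ℝ) (γ : Gam) (h : γ.1 ≠ k) :
    lev k F γ = 0 := by
  unfold lev
  rw [Pi.single_eq_of_ne h]
  rfl

/-- level weights `μ_k / 2^k` with `μ_k = (1 - s) s^k` -/
noncomputable def rp (s : ℝ) (k : ℕ) : ℝ := (1 - s) * s ^ k / 2 ^ k

/-- the weights on `Gam` (total mass one) -/
noncomputable def rho (s : ℝ) (γ : Gam) : ℝ := rp s γ.1 / 2 ^ (2 ^ γ.1)

/-- the vector `ê_h` -/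
noncomputable def ev (t : Tree) (k : ℕ) (h : Sg k) : Gam → ℝ :=
  lev k (fun g => if g.1 ∈ t.A k h then sgn (g.2 h) else 0)

/-- the vector `ξ_h` representing the functional `e_h*` -/
noncomputable def xi (t : Tree) (s : ℝ) (k : ℕ) (h : Sg k) : Gam → ℝ :=
  fun γ => ev t k h γ / (t.m k * rp s k)

/-- the constraint vector `v_i`, `i` a node of level `n` -/
noncomputable def vv (t : Tree) (s : ℝ) (n : ℕ) (i : Sg n) : Gam → ℝ :=
  fun γ => (1 / 2) * ∑ c, sgn c * xi t s (n + 1) (ch i c) γ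
    - (1 / 4) * ∑ c, ∑ c', xi t s (n + 2) (ch (ch i c) c') γ

/-- the square of the norm of `v_i` -/
noncomputable def nv (t : Tree) (s : ℝ) (n : ℕ) : ℝ :=
  1 / (2 * (t.m (n + 1) * rp s (n + 1))) + 1 / (4 * (t.m (n + 2) * rp s (n + 2)))

/-- the index set of the constraints: all nodes of the tree -/
abbrev Ix : Type := (n : ℕ) × Sg n

/-- the normalised constraint vectors -/
noncomputable def vhat (t : Tree) (s : ℝ) (i : Ix) : Gam → ℝ :=
  fun γ => vv t s i.1 i.2 γ / Real.sqrt (nv t s i.1)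

/-- the vector `ẑ_i` -/
noncomputable def zz (t : Tree) (n : ℕ) (i : Sg n) : Gam → ℝ :=
  fun γ => ∑ c, sgn c * ev t (n + 1) (ch i c) γ + ∑ c, ∑ c', ev t (n + 2) (ch (ch i c) c') γ

/-- the vector `y_j`, `j` a node of level `n + 2` -/
noncomputable def yy (t : Tree) (n : ℕ) (j : Sg (n + 2)) : Gam → ℝ :=
  fun γ => sgn (j (Fin.last (n + 1))) * zz t (n + 1) (pr j) γ - zz t n (pr (pr j)) γ

end Pool.Agent.Helper37.BP
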